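import Pool.Agent.X213.GoodGroup

namespace Pool.Agent.Results.MP_23a294_lc.NoGroupAboveClassThree

open Set Cardinal Pool.Agent.X213

universe u

/-- The Borel field over the sequence `A`: the members of the σ-algebra generated by the sets
`A n`. -/
def BorelField {E : Type u} (A : ℕ → Set E) : Set (Set E) :=
  {B | @MeasurableSet E (MeasurableSpace.generateFrom (Set.range A)) B}

/-- The classes `C_k(A)` of subsets of `E³`. -/
def BorelClass {E : Type u} (A : ℕ → Set E) : ℕ → Set (Set (E × E × E))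
  | 0 => {Z | ∃ B₁ ∈ BorelField A, ∃ B₂ ∈ BorelField A, ∃ B₃ ∈ BorelField A,
      Z = B₁ ×ˢ B₂ ×ˢ B₃ ∨ Z = (B₁ ×ˢ B₂ ×ˢ B₃)ᶜ}
  | k + 1 => {Z | ∃ f : ℕ → Set (E × E × E), (∀ i, f i ∈ BorelClass A k) ∧
      (Z = ⋃ i, f i ∨ Z = (⋃ i, f i)ᶜ)}

/-- The representation of a group: the graph of its operation, a subset of `E³`. -/
def representation (E : Type u) [Group E] : Set (E × E × E) :=
  {p | p.1 * p.2.1 = p.2.2}

/-- For every group on a set `E` of cardinality at most the continuum there is a sequence of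
subsets of `E` with respect to which the representation of the group has class `3`. -/
theorem result (E : Type u) [Group E] (hE : #E ≤ 𝔠) :
    ∃ A : ℕ → Set E, representation E ∈ BorelClass A 3 := by
  obtain ⟨A, B, C, h⟩ := good_mul hE
  -- one sequence containing all the sets
  obtain ⟨e, he⟩ := exists_surjective_nat (ℕ × ℕ × ℕ × Fin 3)
  let S : ℕ → Set E := fun m =>
    if (e m).2.2.2 = 0 then A (e m).1 (e m).2.1 (e m).2.2.1
    else if (e m).2.2.2 = 1 then B (e m).1 (e m).2.1 (e m).2.2.1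
    else C (e m).1 (e m).2.1 (e m).2.2.1
  have hA : ∀ k n i, A k n i ∈ BorelField S := by
    intro k n i
    obtain ⟨m, hm⟩ := he (k, n, i, 0)
    refine MeasurableSpace.measurableSet_generateFrom ⟨m, ?_⟩
    simp only [S, hm]
    simp
  have hB : ∀ k n i, B k n i ∈ BorelField S := by
    intro k n i
    obtain ⟨m, hm⟩ := he (k, n, i, 1)
    refine MeasurableSpace.measurableSet_generateFrom ⟨m, ?_⟩
    simp only [S, hm]
    simp
  have hC : ∀ k n i, C k n i ∈ BorelField S := by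
    intro k n i
    obtain ⟨m, hm⟩ := he (k, n, i, 2)
    refine MeasurableSpace.measurableSet_generateFrom ⟨m, ?_⟩
    simp only [S, hm]
    simp
  refine ⟨S, ?_⟩
  have h0 : ∀ k n i, (A k n i) ×ˢ (B k n i) ×ˢ (C k n i) ∈ BorelClass S 0 := fun k n i =>
    ⟨A k n i, hA k n i, B k n i, hB k n i, C k n i, hC k n i, Or.inl rfl⟩
  have h1 : ∀ k n, (⋃ i, (A k n i) ×ˢ (B k n i) ×ˢ (C k n i))ᶜ ∈ BorelClass S 1 := fun k n =>
    ⟨_, h0 k n, Or.inr rfl⟩
  have h2 : ∀ k, (⋃ n, (⋃ i, (A k n i) ×ˢ (B k n i) ×ˢ (C k n i))ᶜ)ᶜ ∈ BorelClass S 2 := fun k =>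
    ⟨_, h1 k, Or.inr rfl⟩
  refine ⟨_, h2, Or.inl ?_⟩
  ext ⟨x, y, z⟩
  simp only [representation, Set.mem_ofPred_eq, Set.mem_iUnion, Set.mem_compl_iff, not_exists,
    not_forall, Classical.not_not, Set.mem_prod]
  exact h x y z

end Pool.Agent.Results.MP_23a294_lc.NoGroupAboveClassThree
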